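import Mathlib
import Pool.Agent.W401.Cheb.AbsDefs

/-!
# The `p`-adic cyclotomic character on Frobenius elements over number fields
-/

set_option autoImplicit false
set_option linter.all false

namespace Pool.Agent.Y802

open NumberField IsDedekindDomain Pool.Agent.W401.Cheb

section

variable (K : Type) [Field K] (p : ℕ) [hp : Fact p.Prime]

/-- the `p`-adic cyclotomic character of the absolute Galois group of `K` -/
noncomputable def chi : GK K →* ℤ_[p]ˣ :=
  (cyclotomicCharacter (AlgebraicClosure K) p).comp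
    (MulSemiringAction.toRingAut Gal(AlgebraicClosure K/K) (AlgebraicClosure K))

theorem continuous_chi : Continuous (chi K p) :=
  cyclotomicCharacter.continuous p K (AlgebraicClosure K)

variable {K p}

/-- roots of unity of order dividing `l` which are congruent modulo a prime not containing `l`
are equal -/
theorem root_eq {P : Ideal (𝓞 (AlgebraicClosure K))} {l : ℕ} (hlP : (l : 𝓞 (AlgebraicClosure K)) ∉ P)
    {x y : 𝓞 (AlgebraicClosure K)}
    (hx : x ^ l = 1) (hy : y ^ l = 1) (h : x - y ∈ P) (hl : l ≠ 0) : x = y := by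
  set u := x * y ^ (l - 1) with hu
  have hyy : y * y ^ (l - 1) = 1 := by rw [← pow_succ', Nat.sub_add_cancel (by omega), hy]
  have hul : u ^ l = 1 := by
    rw [hu, mul_pow, hx, one_mul, ← pow_mul, mul_comm, pow_mul, hy, one_pow]
  have hu1 : u - 1 ∈ P := by
    have : u - 1 = y ^ (l - 1) * (x - y) := by rw [hu, ← hyy]; ring
    rw [this]
    exact P.mul_mem_left _ h
  have hgeom : (u - 1) * ∑ i ∈ Finset.range l, u ^ i = 0 := by
    rw [mul_geom_sum, hul, sub_self]
  rcases mul_eq_zero.1 hgeom with h1 | h1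
  · have h2 : u = 1 := sub_eq_zero.1 h1
    have h3 : x * (y * y ^ (l - 1)) = y * u := by rw [hu]; ring
    rw [hyy, h2, mul_one, mul_one] at h3
    exact h3
  · exfalso
    apply hlP
    have h2 : (l : 𝓞 (AlgebraicClosure K)) = -∑ i ∈ Finset.range l, (u ^ i - 1) := by
      rw [Finset.sum_sub_distrib, h1]
      simp
    rw [h2]
    apply P.neg_mem
    apply P.sum_mem
    intro i _
    exact P.mem_of_dvd (by simpa using sub_dvd_pow_sub_pow u 1 i) hu1

/-- the cyclotomic character of a Frobenius element -/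
theorem chi_frob' [CharZero K] {q : ℕ} {P : Ideal (𝓞 (AlgebraicClosure K))} (hP : P.IsPrime)
    (hl : (p : 𝓞 (AlgebraicClosure K)) ∉ P) {σ : GK K}
    (hσ : ∀ x : 𝓞 (AlgebraicClosure K), σ • x - x ^ q ∈ P) :
    ((chi K p σ : ℤ_[p]ˣ) : ℤ_[p]) = q := by
  have : CharZero (AlgebraicClosure K) := charZero_of_injective_algebraMap
    (algebraMap K (AlgebraicClosure K)).injective
  refine PadicInt.ext_of_toZModPow.mp fun n ↦ ?_
  have h1 : ((chi K p σ : ℤ_[p]ˣ) : ℤ_[p]).toZModPow n =
    (modularCyclotomicCharacter _ (HasEnoughRootsOfUnity.natCard_rootsOfUnity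
      (AlgebraicClosure K) (p ^ n)) (MulSemiringAction.toRingAut Gal(AlgebraicClosure K/K)
        (AlgebraicClosure K) σ)).val := cyclotomicCharacter.toZModPow p _
  rw [h1, map_natCast]
  symm
  apply modularCyclotomicCharacter.unique
  intro t ht
  rw [mem_rootsOfUnity] at ht
  have ht1 : (t : AlgebraicClosure K) ^ (p ^ n) = 1 := by
    rw [← Units.val_pow_eq_pow_val, ht, Units.val_one]
  have hpos : 0 < p ^ n := pow_pos hp.out.pos n
  have hint : IsIntegral ℤ (t : AlgebraicClosure K) :=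
    IsIntegral.of_pow hpos (by rw [ht1]; exact isIntegral_one)
  set x : 𝓞 (AlgebraicClosure K) := ⟨t, hint⟩ with hx
  have hx1 : x ^ (p ^ n) = 1 := RingOfIntegers.ext ht1
  have h2 : σ • x = x ^ q := by
    refine root_eq (P := P) (l := p ^ n) ?_ ?_ ?_ (hσ x) hpos.ne'
    · intro h
      apply hl
      rw [Nat.cast_pow] at h
      exact hP.mem_of_pow_mem n h
    · rw [← smul_pow', hx1, smul_one]
    · rw [← pow_mul, mul_comm, pow_mul, hx1, one_pow]
  have h3 : σ (t : AlgebraicClosure K) = (t : AlgebraicClosure K) ^ q :=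
    congrArg (fun z : 𝓞 (AlgebraicClosure K) => (z : AlgebraicClosure K)) h2
  show σ (t : AlgebraicClosure K) = _
  rw [h3, ZMod.val_natCast]
  conv_lhs => rw [← Nat.div_add_mod q (p ^ n), pow_add, pow_mul, ht1, one_pow, one_mul]

theorem chi_frob [NumberField K] {v : HeightOneSpectrum (𝓞 K)} (hv : (p : 𝓞 K) ∉ v.asIdeal) {σ : GK K}
    (hσ : IsFrob v σ) : ((chi K p σ : ℤ_[p]ˣ) : ℤ_[p]) = (Ideal.absNorm v.asIdeal : ℕ) := by
  obtain ⟨Q, hQ, hQv, hQσ⟩ := hσ
  refine chi_frob' hQ.isPrime (fun h => hv ?_) hQσ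
  rw [← hQv, Ideal.mem_comap, map_natCast]
  exact h

/-- finitely many primes lie above `p` -/
theorem finite_above [NumberField K] : {v : HeightOneSpectrum (𝓞 K) | (p : 𝓞 K) ∈ v.asIdeal}.Finite := by
  have h0 : (p : 𝓞 K) ≠ 0 := by
    have := hp.out.ne_zero
    exact_mod_cast this
  have hI : (Ideal.span {(p : 𝓞 K)}) ≠ 0 := by
    rw [Ne, Ideal.zero_eq_bot, Ideal.span_singleton_eq_bot]; exact h0
  refine (Ideal.finite_factors hI).subset ?_
  intro v hv
  rw [Set.mem_setOf_eq] at hv ⊢
  rw [Ideal.dvd_iff_le, Ideal.span_singleton_le_iff_mem]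
  exact hv

end

end Pool.Agent.Y802
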