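import Pool.Agent.Y800.FinImg

/-! Restriction of an irreducible representation to a normal subgroup, and constant traces on a coset
of a normal subgroup. -/

set_option autoImplicit false
set_option linter.all false

namespace Pool.Agent.Y802

open Module Pool.Agent.Y800

variable {G : Type*} [Group G] {k : Type*} [Field k] {n : ℕ}

/-- every stable subspace is zero or everything -/
def Irr (ρ : G →* GL (Fin n) k) : Prop :=
  ∀ W : Submodule k (Fin n → k), Stable ρ W → W = ⊥ ∨ W = ⊤

/-- the image of a subspace under a group element -/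
def tr (ρ : G →* GL (Fin n) k) (g : G) (W : Submodule k (Fin n → k)) : Submodule k (Fin n → k) :=
  W.map (Matrix.toLin' (ρ g : Matrix (Fin n) (Fin n) k))

theorem mem_tr (ρ : G →* GL (Fin n) k) (g : G) (W : Submodule k (Fin n → k)) (v : Fin n → k) :
    v ∈ tr ρ g W ↔ (ρ g⁻¹ : Matrix (Fin n) (Fin n) k).mulVec v ∈ W := by
  unfold tr
  rw [Submodule.mem_map]
  constructor
  · rintro ⟨w, hw, rfl⟩
    rw [Matrix.toLin'_apply, Matrix.mulVec_mulVec, ← Units.val_mul, ← map_mul, inv_mul_cancel, map_one,
      Units.val_one, Matrix.one_mulVec]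
    exact hw
  · intro h
    refine ⟨_, h, ?_⟩
    rw [Matrix.toLin'_apply, Matrix.mulVec_mulVec, ← Units.val_mul, ← map_mul, mul_inv_cancel, map_one,
      Units.val_one, Matrix.one_mulVec]

theorem tr_stable (ρ : G →* GL (Fin n) k) (N : Subgroup G) [N.Normal] (g : G)
    {W : Submodule k (Fin n → k)} (hW : Stable (ρ.comp N.subtype) W) :
    Stable (ρ.comp N.subtype) (tr ρ g W) := by
  rintro ⟨x, hx⟩ w hw
  rw [mem_tr] at hw ⊢
  have h1 : g⁻¹ * x * g ∈ N := by
    have := (inferInstance : N.Normal).conj_mem x hx g⁻¹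
    rwa [inv_inv] at this
  have h2 := hW ⟨g⁻¹ * x * g, h1⟩ _ hw
  have e1 : ((ρ.comp N.subtype) ⟨g⁻¹ * x * g, h1⟩ : GL (Fin n) k) = ρ g⁻¹ * ρ x * ρ g := by
    show ρ (g⁻¹ * x * g) = _
    rw [map_mul, map_mul]
  rw [e1] at h2
  have e2 : ((ρ.comp N.subtype) ⟨x, hx⟩ : GL (Fin n) k) = ρ x := rfl
  rw [e2]
  rw [Matrix.mulVec_mulVec, ← Units.val_mul] at h2 ⊢
  have e3 : ρ g⁻¹ * ρ x * ρ g * ρ g⁻¹ = ρ g⁻¹ * ρ x := by
    rw [mul_assoc (ρ g⁻¹ * ρ x) (ρ g) (ρ g⁻¹), ← map_mul ρ g g⁻¹, mul_inv_cancel, map_one, mul_one]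
  rwa [e3] at h2

/-- **Clifford's theorem.** -/
theorem clifford (ρ : G →* GL (Fin n) k) (h : Irr ρ) (N : Subgroup G) [N.Normal] :
    IsSemisimpleRep (ρ.comp N.subtype) := by
  classical
  intro W hW
  -- a maximal stable subspace which meets `W` trivially
  have hex : ∃ d : ℕ, ∃ W' : Submodule k (Fin n → k), Stable (ρ.comp N.subtype) W' ∧ Disjoint W W' ∧
      finrank k (Fin n → k) - finrank k W' = d :=
    ⟨_, ⊥, fun g w hw => by
      rw [Submodule.mem_bot] at hw ⊢; rw [hw, Matrix.mulVec_zero], disjoint_bot_right, rfl⟩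
  obtain ⟨W', hW', hdis, hd⟩ := Nat.find_spec hex
  have hmax : ∀ X : Submodule k (Fin n → k), Stable (ρ.comp N.subtype) X → Disjoint W X → W' ≤ X →
      X = W' := by
    intro X hX hXd hle
    have h1 := Nat.find_min' hex ⟨X, hX, hXd, rfl⟩
    rw [← hd] at h1
    have h2 := Submodule.finrank_mono hle
    have h3 : finrank k X ≤ finrank k (Fin n → k) := Submodule.finrank_le X
    exact (Submodule.eq_of_le_of_finrank_le hle (by omega)).symm
  refine ⟨W', hW', ⟨hdis, ?_⟩⟩
  rw [codisjoint_iff]
  by_contra hne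
  -- a minimal stable subspace
  have hV : (⊤ : Submodule k (Fin n → k)) ≠ ⊥ := by
    intro h0
    apply hne
    rw [eq_top_iff, h0]
    exact bot_le
  have hex2 : ∃ d : ℕ, ∃ S : Submodule k (Fin n → k), Stable (ρ.comp N.subtype) S ∧ S ≠ ⊥ ∧
      finrank k S = d := ⟨_, ⊤, fun g w hw => trivial, hV, rfl⟩
  obtain ⟨S, hS, hSne, hSd⟩ := Nat.find_spec hex2
  have hmin : ∀ X : Submodule k (Fin n → k), Stable (ρ.comp N.subtype) X → X ≤ S → X ≠ ⊥ → X = S := by
    intro X hX hle hXne
    have h1 := Nat.find_min' hex2 ⟨X, hX, hXne, rfl⟩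
    rw [← hSd] at h1
    exact Submodule.eq_of_le_of_finrank_le hle h1
  -- some translate is not contained in `W ⊔ W'`
  have h1 : ∃ g, ¬ tr ρ g S ≤ W ⊔ W' := by
    by_contra hall
    push Not at hall
    have h2 : (⨆ g, tr ρ g S) = ⊥ ∨ (⨆ g, tr ρ g S) = ⊤ := by
      apply h
      intro g w hw
      have e : ∀ w ∈ ⨆ g, tr ρ g S, (ρ g : Matrix (Fin n) (Fin n) k).mulVec w ∈ ⨆ g, tr ρ g S := by
        intro w hw
        induction hw using Submodule.iSup_induction' with
        | mem a x hx =>
          refine Submodule.mem_iSup_of_mem (g * a) ?_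
          rw [mem_tr] at hx ⊢
          rw [Matrix.mulVec_mulVec, ← Units.val_mul, ← map_mul, mul_inv_rev, mul_assoc, inv_mul_cancel,
            mul_one]
          exact hx
        | zero => rw [Matrix.mulVec_zero]; exact zero_mem _
        | add x y _ _ hx hy => rw [Matrix.mulVec_add]; exact add_mem hx hy
      exact e w hw
    rcases h2 with h2 | h2
    · apply hSne
      rw [eq_bot_iff, ← h2]
      intro s hs
      refine Submodule.mem_iSup_of_mem 1 ?_
      rw [mem_tr, inv_one, map_one, Units.val_one, Matrix.one_mulVec]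
      exact hs
    · apply hne
      rw [eq_top_iff, ← h2]
      exact iSup_le hall
  obtain ⟨g, hg⟩ := h1
  have hstab : Stable (ρ.comp N.subtype) (W ⊔ W') := by
    intro x w hw
    rw [Submodule.mem_sup] at hw ⊢
    obtain ⟨a, ha, b, hb, rfl⟩ := hw
    exact ⟨_, hW x a ha, _, hW' x b hb, (Matrix.mulVec_add _ _ _).symm⟩
  have hdis2 : Disjoint (W ⊔ W') (tr ρ g S) := by
    rw [disjoint_iff]
    by_contra hb
    -- pull back
    have h2 : tr ρ g⁻¹ ((W ⊔ W') ⊓ tr ρ g S) = S := by
      apply hmin
      · apply tr_stable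
        intro x w hw
        exact ⟨hstab x w hw.1, tr_stable ρ N g hS x w hw.2⟩
      · intro v hv
        rw [mem_tr, inv_inv] at hv
        have : _ ∈ tr ρ g S := hv.2
        rw [mem_tr, Matrix.mulVec_mulVec, ← Units.val_mul, ← map_mul, inv_mul_cancel, map_one,
          Units.val_one, Matrix.one_mulVec] at this
        exact this
      · intro h0
        apply hb
        rw [eq_bot_iff]
        intro v hv
        have : (ρ g⁻¹ : Matrix (Fin n) (Fin n) k).mulVec v ∈ tr ρ g⁻¹ ((W ⊔ W') ⊓ tr ρ g S) := by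
          rw [mem_tr, inv_inv, Matrix.mulVec_mulVec, ← Units.val_mul, ← map_mul, mul_inv_cancel, map_one,
            Units.val_one, Matrix.one_mulVec]
          exact hv
        rw [h0, Submodule.mem_bot] at this
        rw [Submodule.mem_bot]
        have h3 := congrArg (fun w => (ρ g : Matrix (Fin n) (Fin n) k).mulVec w) this
        simp only [Matrix.mulVec_zero] at h3
        rwa [Matrix.mulVec_mulVec, ← Units.val_mul, ← map_mul, mul_inv_cancel, map_one,
            Units.val_one, Matrix.one_mulVec] at h3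
    apply hg
    intro v hv
    rw [mem_tr] at hv
    rw [← h2, mem_tr, inv_inv, Matrix.mulVec_mulVec, ← Units.val_mul, ← map_mul, mul_inv_cancel, map_one,
            Units.val_one, Matrix.one_mulVec] at hv
    exact hv.1
  have h4 : Disjoint W (W' ⊔ tr ρ g S) := by
    exact Disjoint.disjoint_sup_right_of_disjoint_sup_left hdis hdis2
  have h5 := hmax (W' ⊔ tr ρ g S) (by
    intro x w hw
    rw [Submodule.mem_sup] at hw ⊢
    obtain ⟨a, ha, b, hb, rfl⟩ := hw
    exact ⟨_, hW' x a ha, _, tr_stable ρ N g hS x b hb, (Matrix.mulVec_add _ _ _).symm⟩) h4 le_sup_left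
  apply hg
  have h6 : tr ρ g S ≤ W' := by
    rw [← h5]; exact le_sup_right
  exact h6.trans le_sup_right

/-- **Constant nonzero traces on a coset of a normal subgroup.** -/
theorem trivial_of_coset (ρ : G →* GL (Fin n) k) (h : Irr ρ)
    (hn : ∀ m : ℕ, 1 ≤ m → m ≤ n → (m : k) ≠ 0) (N : Subgroup G) [N.Normal] (g₀ : G) (t : k) (ht : t ≠ 0)
    (hc : ∀ u ∈ N, (ρ (g₀ * u) : Matrix (Fin n) (Fin n) k).trace = t) : ∀ u ∈ N, ρ u = 1 := by
  classical
  have hss := clifford ρ h N
  set r : N →* GL (Fin n) k := ρ.comp N.subtype with hr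
  -- the fixed vectors
  let W : Submodule k (Fin n → k) :=
    { carrier := {v | ∀ u ∈ N, (ρ u : Matrix (Fin n) (Fin n) k).mulVec v = v}
      add_mem' := fun {v w} hv hw u hu => by rw [Matrix.mulVec_add, hv u hu, hw u hu]
      zero_mem' := fun u _ => Matrix.mulVec_zero _
      smul_mem' := fun c v hv u hu => by rw [Matrix.mulVec_smul, hv u hu] }
  have hW : Stable ρ W := by
    intro g w hw u hu
    have h1 : g⁻¹ * u * g ∈ N := by
      have := (inferInstance : N.Normal).conj_mem u hu g⁻¹
      rwa [inv_inv] at this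
    have h2 := hw _ h1
    have h3 := congrArg (fun w => (ρ g : Matrix (Fin n) (Fin n) k).mulVec w) h2
    rw [Matrix.mulVec_mulVec, ← Units.val_mul, ← map_mul] at h3
    rw [Matrix.mulVec_mulVec, ← Units.val_mul, ← map_mul]
    have e : g * (g⁻¹ * u * g) = u * g := by group
    rwa [e] at h3
  rcases h W hW with h0 | h1
  · exfalso
    apply ht
    -- Riesz representation for the trace form
    let A := Sp r
    let B : A →ₗ[k] Module.Dual k A :=
      { toFun := fun x =>
          { toFun := fun a => ((x : Matrix (Fin n) (Fin n) k) * (a : Matrix (Fin n) (Fin n) k)).trace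
            map_add' := fun a b => by
              rw [Submodule.coe_add, mul_add, Matrix.trace_add]
            map_smul' := fun c a => by
              rw [Submodule.coe_smul, mul_smul_comm, Matrix.trace_smul]; rfl }
        map_add' := fun x y => by
          ext a
          simp only [LinearMap.coe_mk, AddHom.coe_mk, LinearMap.add_apply]
          rw [Submodule.coe_add, add_mul, Matrix.trace_add]
        map_smul' := fun c x => by
          ext a
          simp only [LinearMap.coe_mk, AddHom.coe_mk, LinearMap.smul_apply, RingHom.id_apply]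
          rw [Submodule.coe_smul, smul_mul_assoc, Matrix.trace_smul] }
    have hBinj : Function.Injective B := by
      rw [← LinearMap.ker_eq_bot, LinearMap.ker_eq_bot']
      intro x hx
      have h1 : (x : Matrix (Fin n) (Fin n) k) = 0 := by
        refine eq_zero_of_trace r hn hss x.2 fun u => ?_
        have := LinearMap.congr_fun hx ⟨_, mem_Sp r u⟩
        rw [Matrix.trace_mul_comm]
        exact this
      exact Subtype.ext h1
    have hBsur : Function.Surjective B :=
      (LinearMap.injective_iff_surjective_of_finrank_eq_finrank Subspace.dual_finrank_eq.symm).1 hBinj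
    obtain ⟨f, hf⟩ := hBsur
      { toFun := fun a => ((ρ g₀ : Matrix (Fin n) (Fin n) k) * (a : Matrix (Fin n) (Fin n) k)).trace
        map_add' := fun a b => by
          rw [Submodule.coe_add, mul_add, Matrix.trace_add]
        map_smul' := fun c a => by
          rw [Submodule.coe_smul, mul_smul_comm, Matrix.trace_smul]; rfl }
    have hf' : ∀ a ∈ A, ((f : Matrix (Fin n) (Fin n) k) * a).trace =
        ((ρ g₀ : Matrix (Fin n) (Fin n) k) * a).trace := fun a ha => LinearMap.congr_fun hf ⟨a, ha⟩
    -- the functional is invariant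
    have hinv : ∀ u : N, ∀ a ∈ A, ((ρ g₀ : Matrix (Fin n) (Fin n) k) * (a * (r u : Matrix (Fin n) (Fin n) k))).trace =
        ((ρ g₀ : Matrix (Fin n) (Fin n) k) * a).trace := by
      intro u a ha
      change a ∈ Submodule.span k (Set.range fun g => (r g : Matrix (Fin n) (Fin n) k)) at ha
      induction ha using Submodule.span_induction with
      | mem z hz =>
        obtain ⟨w, rfl⟩ := hz
        have e1 : (ρ g₀ : Matrix (Fin n) (Fin n) k) * ((r w : Matrix (Fin n) (Fin n) k) * (r u : Matrix (Fin n) (Fin n) k))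
            = (ρ (g₀ * (w * u : N)) : Matrix (Fin n) (Fin n) k) := by
          rw [map_mul, Units.val_mul, Subgroup.coe_mul, map_mul, Units.val_mul]
          rfl
        have e2 : (ρ g₀ : Matrix (Fin n) (Fin n) k) * (r w : Matrix (Fin n) (Fin n) k)
            = (ρ (g₀ * (w : G)) : Matrix (Fin n) (Fin n) k) := by
          rw [map_mul, Units.val_mul]
          rfl
        simp only
        rw [e1, e2, hc _ (w * u).2, hc _ w.2]
      | zero => rw [zero_mul, mul_zero]
      | add y z _ _ hy hz => rw [add_mul, mul_add, mul_add, Matrix.trace_add, Matrix.trace_add, hy, hz]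
      | smul c y _ hy => rw [smul_mul_assoc, mul_smul_comm, mul_smul_comm, Matrix.trace_smul, Matrix.trace_smul, hy]
    have hfix : ∀ u : N, (r u : Matrix (Fin n) (Fin n) k) * (f : Matrix (Fin n) (Fin n) k) = f := by
      intro u
      rw [← sub_eq_zero]
      refine eq_zero_of_trace r hn hss (sub_mem (mul_mem_Sp r (mem_Sp r u) f.2) f.2) fun w => ?_
      rw [mul_sub, Matrix.trace_sub, sub_eq_zero]
      have h2 := hinv u (r w : Matrix (Fin n) (Fin n) k) (mem_Sp r w)
      rw [← hf' _ (mul_mem_Sp r (mem_Sp r w) (mem_Sp r u)), ← hf' _ (mem_Sp r w)] at h2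
      rw [← mul_assoc, Matrix.trace_mul_comm, h2, Matrix.trace_mul_comm]
    have hf0 : (f : Matrix (Fin n) (Fin n) k) = 0 := by
      ext i j
      have h2 : (fun i => (f : Matrix (Fin n) (Fin n) k) i j) ∈ W := by
        intro u hu
        have h3 := hfix ⟨u, hu⟩
        ext i
        have h4 := congrFun (congrFun h3 i) j
        exact h4
      rw [h0, Submodule.mem_bot] at h2
      exact congrFun h2 i
    have h5 := hf' 1 (one_mem_Sp r)
    rw [hf0, zero_mul, Matrix.trace_zero, mul_one] at h5
    have h6 := hc 1 (one_mem N)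
    rw [mul_one] at h6
    rw [← h6, ← h5]
  · intro u hu
    apply Units.ext
    apply Matrix.toLin'.injective
    refine LinearMap.ext fun v => ?_
    rw [Matrix.toLin'_apply, Units.val_one, Matrix.toLin'_one, LinearMap.id_apply]
    have : v ∈ W := by rw [h1]; trivial
    exact this u hu

end Pool.Agent.Y802
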