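import Pool.Agent.Y802.Cliff
import Pool.Agent.Y800.Cheb

/-! A linear functional of a representation of a profinite group which vanishes on a closed set of
positive measure vanishes on a coset of an open subgroup. -/

set_option autoImplicit false
set_option linter.all false

namespace Pool.Agent.Y802

open Module MeasureTheory Topology Pool.Agent.Y800

section haar

variable {G : Type*} [Group G] [TopologicalSpace G] [IsTopologicalGroup G]
    [CompactSpace G] [T2Space G] [MeasurableSpace G] [BorelSpace G] [TotallyDisconnectedSpace G]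

/-- the coset of `g` -/
def cst (U : Subgroup G) (g : G) : Set G := {x | g⁻¹ * x ∈ U}

theorem cst_preimage (U : Subgroup G) (g : G) : cst U g = (fun x => g⁻¹ * x) ⁻¹' (U : Set G) := rfl

theorem exists_coset (μ : Measure G) [IsProbabilityMeasure μ] [μ.IsMulLeftInvariant] [μ.Regular]
    (C : Set G) (hC : IsClosed C) (h0 : μ C ≠ 0) (D : ℕ) :
    ∃ (U : OpenNormalSubgroup G) (g : G), ((D : ENNReal) + 1) * μ (cst U.toSubgroup g \ C) < μ (U.toSubgroup : Set G) := by
  classical
  have hD0 : ((D : ENNReal) + 1) ≠ 0 := by simp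
  have hDt : ((D : ENNReal) + 1) ≠ ⊤ := by simp
  have hCt : μ C ≠ ⊤ := measure_ne_top μ C
  have hlt : μ C < μ C + μ C / ((D : ENNReal) + 1) :=
    ENNReal.lt_add_right hCt (ENNReal.div_ne_zero.2 ⟨h0, hDt⟩)
  obtain ⟨O, hZO, hO, hOμ⟩ := C.exists_isOpen_lt_of_lt (μ := μ) _ hlt
  obtain ⟨V, hV, hZV⟩ := compact_open_separated_mul_right hC.isCompact hO hZO
  obtain ⟨W, hWV, hW, hW1⟩ := mem_nhds_iff.mp hV
  obtain ⟨U, hU⟩ := ProfiniteGrp.exist_openNormalSubgroup_sub_open_nhds_of_one hW hW1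
  have hUo : IsOpen (U.toSubgroup : Set G) := U.isOpen'
  haveI hfin : Finite (G ⧸ U.toSubgroup) := Subgroup.quotient_finite_of_isOpen _ hUo
  refine ⟨U, ?_⟩
  by_contra hno
  push Not at hno
  set q : G → G ⧸ U.toSubgroup := QuotientGroup.mk with hq
  have hFf : (q '' C).Finite := Set.toFinite _
  set F : Finset (G ⧸ U.toSubgroup) := hFf.toFinset with hF
  set K : G ⧸ U.toSubgroup → Set G := fun y => {x | q x = y} with hK
  have hKc : ∀ g, K (q g) = cst U.toSubgroup g := by
    intro g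
    ext x
    simp only [hK, Set.mem_setOf_eq, cst]
    rw [eq_comm, hq, QuotientGroup.eq]
  have hKm : ∀ y, MeasurableSet (K y) := by
    intro y
    obtain ⟨g, rfl⟩ := QuotientGroup.mk_surjective y
    rw [hKc, cst_preimage]
    exact (hUo.preimage (continuous_mul_left g⁻¹)).measurableSet
  have hKμ : ∀ y, μ (K y) = μ (U.toSubgroup : Set G) := by
    intro y
    obtain ⟨g, rfl⟩ := QuotientGroup.mk_surjective y
    rw [hKc, cst_preimage, measure_preimage_mul]
  set CU : Set G := ⋃ y ∈ F, K y with hCU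
  have hCsub : C ⊆ CU := by
    intro x hx
    rw [hCU, Set.mem_iUnion₂]
    exact ⟨q x, by rw [hF, Set.Finite.mem_toFinset]; exact ⟨x, hx, rfl⟩, rfl⟩
  have hCUO : CU ⊆ O := by
    intro x hx
    rw [hCU, Set.mem_iUnion₂] at hx
    obtain ⟨y, hy, hxy⟩ := hx
    rw [hF, Set.Finite.mem_toFinset] at hy
    obtain ⟨z, hz, rfl⟩ := hy
    apply hZV
    have hxy' : q z = q x := hxy.symm
    rw [hq, QuotientGroup.eq] at hxy'
    refine Set.mem_mul.mpr ⟨z, hz, z⁻¹ * x, hWV (hU hxy'), by group⟩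
  have hCm : MeasurableSet C := hC.measurableSet
  have h1 : μ (CU \ C) < μ C / ((D : ENNReal) + 1) := by
    rw [measure_diff hCsub hCm.nullMeasurableSet hCt]
    refine ENNReal.sub_lt_of_lt_add (measure_mono hCsub) ?_
    rw [add_comm]
    exact lt_of_le_of_lt (measure_mono hCUO) hOμ
  have h2 : μ (CU \ C) = ∑ y ∈ F, μ (K y \ C) := by
    have e : CU \ C = ⋃ y ∈ F, (K y \ C) := by
      ext x
      simp only [hCU, Set.mem_diff, Set.mem_iUnion]
      constructor
      · rintro ⟨⟨y, hy, hxy⟩, hx⟩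
        exact ⟨y, hy, hxy, hx⟩
      · rintro ⟨y, hy, hxy, hx⟩
        exact ⟨⟨y, hy, hxy⟩, hx⟩
    rw [e, measure_biUnion_finset]
    · intro y _ y' _ hne
      rw [Function.onFun, Set.disjoint_left]
      rintro x ⟨hx, _⟩ ⟨hx', _⟩
      exact hne (hx.symm.trans hx')
    · intro y _
      exact (hKm y).diff hCm
  have h3 : μ C ≤ ((D : ENNReal) + 1) * μ (CU \ C) := by
    rw [h2, Finset.mul_sum]
    calc μ C ≤ μ (⋃ y ∈ F, K y) := measure_mono hCsub
      _ ≤ ∑ y ∈ F, μ (K y) := measure_biUnion_finset_le _ _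
      _ ≤ ∑ y ∈ F, ((D : ENNReal) + 1) * μ (K y \ C) := by
          refine Finset.sum_le_sum fun y _ => ?_
          obtain ⟨g, rfl⟩ := QuotientGroup.mk_surjective y
          rw [hKμ]
          have := hno g
          rw [← hKc] at this
          exact this
  have h4 : ((D : ENNReal) + 1) * μ (CU \ C) < μ C := by
    have := ENNReal.mul_lt_mul_right hD0 hDt h1
    rwa [ENNReal.mul_div_cancel hD0 hDt] at this
  exact absurd h3 (not_le.2 h4)

variable {k : Type*} [Field k]

theorem functional_coset (μ : Measure G) [IsProbabilityMeasure μ] [μ.IsMulLeftInvariant] [μ.Regular]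
    {A : Type*} [Ring A] [Algebra k A] [FiniteDimensional k A] (r : G →* A)
    (τ : A →ₗ[k] k) (C : Set G) (hC : IsClosed C) (h0 : μ C ≠ 0) (hτ : ∀ g ∈ C, τ (r g) = 0) :
    ∃ (U : OpenNormalSubgroup G) (g : G), ∀ u ∈ U.toSubgroup, τ (r (g * u)) = 0 := by
  classical
  obtain ⟨U, g, hUg⟩ := exists_coset μ C hC h0 (finrank k A)
  refine ⟨U, g, fun u hu => ?_⟩
  have key := functional_zero (k := k) (r.comp U.toSubgroup.subtype)
    (τ ∘ₗ LinearMap.mulLeft k (r g)) {u | g * (u : G) ∈ C} ?_ ?_ ⟨u, hu⟩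
  · rw [map_mul]
    exact key
  · intro s hs
    by_contra hno
    push Not at hno
    have h1 : (U.toSubgroup : Set G) ⊆ ⋃ u ∈ s, (fun x => g * (u : G) * x) ⁻¹' (cst U.toSubgroup g \ C) := by
      intro x hx
      obtain ⟨u, hu, hux⟩ := hno ⟨x, hx⟩
      rw [Set.mem_iUnion₂]
      refine ⟨u, hu, ?_, ?_⟩
      · show g⁻¹ * (g * (u : G) * x) ∈ U.toSubgroup
        have : g⁻¹ * (g * (u : G) * x) = u * x := by group
        rw [this]
        exact mul_mem u.2 hx
      · intro hmem
        apply hux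
        show g * ((u * ⟨x, hx⟩ : U.toSubgroup) : G) ∈ C
        rw [Subgroup.coe_mul, ← mul_assoc]
        exact hmem
    have h2 : μ (U.toSubgroup : Set G) ≤ (s.card : ENNReal) * μ (cst U.toSubgroup g \ C) := by
      refine (measure_mono h1).trans ((measure_biUnion_finset_le _ _).trans ?_)
      rw [← nsmul_eq_mul, ← Finset.sum_const]
      refine Finset.sum_le_sum fun u _ => ?_
      rw [measure_preimage_mul]
    have h3 : (s.card : ENNReal) * μ (cst U.toSubgroup g \ C) ≤
        ((finrank k A : ENNReal) + 1) * μ (cst U.toSubgroup g \ C) := by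
      gcongr
      refine le_trans ?_ (le_add_of_nonneg_right zero_le_one)
      exact_mod_cast hs
    exact absurd (h2.trans h3) (not_le.2 hUg)
  · intro u hu
    have := hτ _ hu
    rw [map_mul] at this
    exact this

variable {n : ℕ}

/-- **Finitely many nonzero traces on a set of positive measure.** -/
theorem open_kernel (μ : Measure G) [IsProbabilityMeasure μ] [μ.IsMulLeftInvariant] [μ.Regular]
    (ρ : G →* GL (Fin n) k) (h : Irr ρ) (hn : ∀ m : ℕ, 1 ≤ m → m ≤ n → (m : k) ≠ 0)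
    (T : Finset k) (hT : (0 : k) ∉ T)
    (hC : ∀ t : k, IsClosed {g : G | (ρ g : Matrix (Fin n) (Fin n) k).trace = t})
    (h0 : μ {g : G | (ρ g : Matrix (Fin n) (Fin n) k).trace ∈ T} ≠ 0) :
    ∃ U : OpenNormalSubgroup G, ∀ u ∈ U.toSubgroup, ρ u = 1 := by
  classical
  have h1 : ∃ t ∈ T, μ {g : G | (ρ g : Matrix (Fin n) (Fin n) k).trace = t} ≠ 0 := by
    by_contra hno
    push Not at hno
    apply h0
    have e : {g : G | (ρ g : Matrix (Fin n) (Fin n) k).trace ∈ T} =
        ⋃ t ∈ T, {g : G | (ρ g : Matrix (Fin n) (Fin n) k).trace = t} := by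
      ext x; simp
    rw [e]
    exact le_antisymm ((measure_biUnion_finset_le _ _).trans (by
      rw [Finset.sum_eq_zero hno])) bot_le
  obtain ⟨t, ht, hμ⟩ := h1
  let r : G →* (Matrix (Fin n) (Fin n) k × k) :=
    ((Units.coeHom _).comp ρ).prod 1
  let τ : (Matrix (Fin n) (Fin n) k × k) →ₗ[k] k :=
    (Matrix.traceLinearMap (Fin n) k k) ∘ₗ LinearMap.fst k _ _ - t • LinearMap.snd k _ _
  have hr : ∀ g, τ (r g) = (ρ g : Matrix (Fin n) (Fin n) k).trace - t := by
    intro g
    show (ρ g : Matrix (Fin n) (Fin n) k).trace - t • (1 : k) = _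
    rw [smul_eq_mul, mul_one]
  obtain ⟨U, g₀, hU⟩ := functional_coset (k := k) μ r τ _ (hC t) hμ (fun g hg => by
    rw [hr, sub_eq_zero]; exact hg)
  refine ⟨U, ?_⟩
  haveI : U.toSubgroup.Normal := U.isNormal'
  refine trivial_of_coset ρ h hn U.toSubgroup g₀ t (fun h0 => hT (h0 ▸ ht)) fun u hu => ?_
  have := hU u hu
  rw [hr, sub_eq_zero] at this
  exact this

end haar

end Pool.Agent.Y802
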