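import Pool.Agent.Y802.Coset

/-! Density of the primes with a Frobenius element in a closed set, over number fields. -/

set_option autoImplicit false
set_option linter.all false

namespace Pool.Agent.Y802

open Module MeasureTheory Topology Filter NumberField IsDedekindDomain Pool.Agent.Y800
open Pool.Agent.W401.Cheb Pool.Agent.W528.Ord

variable {K : Type} [Field K] [NumberField K]

theorem exists_haarK : ∃ (m : MeasurableSpace (GK K)) (_ : BorelSpace (GK K)) (μ : Measure (GK K)),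
    IsProbabilityMeasure μ ∧ μ.IsMulLeftInvariant ∧ μ.Regular := by
  letI : MeasurableSpace (GK K) := borel (GK K)
  haveI : BorelSpace (GK K) := ⟨rfl⟩
  refine ⟨inferInstance, inferInstance, Measure.haarMeasure (⊤ : TopologicalSpace.PositiveCompacts (GK K)), ?_, ?_, ?_⟩
  · constructor
    have := Measure.haarMeasure_self (G := GK K) (K₀ := ⊤)
    rwa [TopologicalSpace.PositiveCompacts.coe_top] at this
  · infer_instance
  · infer_instance

/-- the density is at most the measure -/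
theorem dens_lt [MeasurableSpace (GK K)] [BorelSpace (GK K)] (μ : Measure (GK K))
    [IsProbabilityMeasure μ] [μ.IsMulLeftInvariant] [μ.Regular] (Z : Set (GK K)) (hZ : IsClosed Z)
    (hconj : ∀ σ ∈ Z, ∀ τ : GK K, τ * σ * τ⁻¹ ∈ Z) (c : ℝ) (hc : 0 < c) (h0 : μ Z < ENNReal.ofReal c) :
    ∀ᶠ N in atTop, dens (fun v : HeightOneSpectrum (𝓞 K) => ∃ σ ∈ Z, IsFrob v σ) N < c := by
  obtain ⟨U, hfin, hU⟩ := exists_approx μ Z hZ c hc h0
  have hUo : IsOpen (U.toSubgroup : Set (GK K)) := U.isOpen'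
  haveI : U.toSubgroup.Normal := U.isNormal'
  set C : Set (GK K) := {x | (QuotientGroup.mk x : GK K ⧸ U.toSubgroup) ∈
    ((QuotientGroup.mk : GK K → GK K ⧸ U.toSubgroup) '' Z)} with hC
  have hCC : (QuotientGroup.mk : GK K → GK K ⧸ U.toSubgroup) '' C =
      (QuotientGroup.mk : GK K → GK K ⧸ U.toSubgroup) '' Z := by
    ext q
    constructor
    · rintro ⟨x, hx, rfl⟩
      exact hx
    · rintro ⟨z, hz, rfl⟩
      exact ⟨z, ⟨z, hz, rfl⟩, rfl⟩
  have key := chebK K U.toSubgroup hUo C ?_ ?_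
  · rw [hCC] at key
    filter_upwards [key.eventually (gt_mem_nhds hU)] with N hN
    refine lt_of_le_of_lt (dens_mono ?_ N) hN
    rintro v ⟨σ, hσ, hv⟩
    exact ⟨σ, ⟨σ, hσ, rfl⟩, hv⟩
  · rintro σ ⟨z, hz, hzσ⟩ τ
    refine ⟨τ * z * τ⁻¹, hconj z hz τ, ?_⟩
    have e1 : ((τ * z * τ⁻¹ : GK K) : GK K ⧸ U.toSubgroup) = (τ : GK K ⧸ U.toSubgroup) * (z : GK K ⧸ U.toSubgroup) *
      ((τ : GK K ⧸ U.toSubgroup))⁻¹ := rfl
    have e2 : ((τ * σ * τ⁻¹ : GK K) : GK K ⧸ U.toSubgroup) = (τ : GK K ⧸ U.toSubgroup) * (σ : GK K ⧸ U.toSubgroup) *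
      ((τ : GK K ⧸ U.toSubgroup))⁻¹ := rfl
    rw [e1, e2, hzσ]
  · rintro σ ⟨z, hz, hzσ⟩ u hu
    refine ⟨z, hz, ?_⟩
    rw [hzσ, QuotientGroup.eq]
    simpa using hu

/-- a set of primes which is not of density zero -/
def NotNull (P : HeightOneSpectrum (𝓞 K) → Prop) : Prop :=
  ∃ c : ℝ, 0 < c ∧ ∃ᶠ N in atTop, c ≤ dens P N

theorem measure_ne_zero [MeasurableSpace (GK K)] [BorelSpace (GK K)] (μ : Measure (GK K))
    [IsProbabilityMeasure μ] [μ.IsMulLeftInvariant] [μ.Regular] (Z : Set (GK K)) (hZ : IsClosed Z)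
    (hconj : ∀ σ ∈ Z, ∀ τ : GK K, τ * σ * τ⁻¹ ∈ Z) (P : HeightOneSpectrum (𝓞 K) → Prop)
    (hP : NotNull P) (hPZ : ∀ v, P v → ∃ σ ∈ Z, IsFrob v σ) : μ Z ≠ 0 := by
  intro h0
  obtain ⟨c, hc, hf⟩ := hP
  have h1 := dens_lt μ Z hZ hconj c hc (by rw [h0]; exact ENNReal.ofReal_pos.2 hc)
  obtain ⟨N, hN1, hN2⟩ := (hf.and_eventually h1).exists
  exact absurd (hN1.trans (dens_mono hPZ N)) (not_le.2 hN2)

theorem notNull_or {P Q : HeightOneSpectrum (𝓞 K) → Prop} (h : NotNull fun v => P v ∨ Q v) :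
    NotNull P ∨ NotNull Q := by
  obtain ⟨c, hc, hf⟩ := h
  by_contra hno
  rw [not_or] at hno
  have h1 : ∀ᶠ N in atTop, dens P N < c / 2 := by
    by_contra h
    exact hno.1 ⟨c / 2, by positivity, fun h' => h (h'.mono fun N hN => not_le.1 hN)⟩
  have h2 : ∀ᶠ N in atTop, dens Q N < c / 2 := by
    by_contra h
    exact hno.2 ⟨c / 2, by positivity, fun h' => h (h'.mono fun N hN => not_le.1 hN)⟩
  obtain ⟨N, hN1, hN2, hN3⟩ := (hf.and_eventually (h1.and h2)).exists
  have := dens_or P Q N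
  linarith

theorem notNull_mono {P Q : HeightOneSpectrum (𝓞 K) → Prop} (hPQ : ∀ v, P v → Q v) (h : NotNull P) :
    NotNull Q := by
  obtain ⟨c, hc, hf⟩ := h
  exact ⟨c, hc, hf.mono fun N hN => hN.trans (dens_mono hPQ N)⟩

theorem notNull_finset {ι : Type*} (M : Finset ι) (P : ι → HeightOneSpectrum (𝓞 K) → Prop)
    (h : NotNull fun v => ∃ m ∈ M, P m v) : ∃ m ∈ M, NotNull (P m) := by
  classical
  induction M using Finset.induction_on with
  | empty =>
    exfalso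
    obtain ⟨c, hc, hf⟩ := h
    obtain ⟨N, hN⟩ := hf.exists
    have : dens (fun v : HeightOneSpectrum (𝓞 K) => ∃ m ∈ (∅ : Finset ι), P m v) N = 0 := by
      unfold dens
      have : Nat.card {v : HeightOneSpectrum (𝓞 K) // Ideal.absNorm v.asIdeal ≤ N ∧
          ∃ m ∈ (∅ : Finset ι), P m v} = 0 := by
        rw [Nat.card_eq_zero]
        left
        constructor
        rintro ⟨v, _, m, hm, _⟩
        simp at hm
      rw [this]; simp
    linarith
  | insert a M _ ih =>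
    have h1 : NotNull fun v => P a v ∨ ∃ m ∈ M, P m v := by
      refine notNull_mono ?_ h
      rintro v ⟨m, hm, hv⟩
      rw [Finset.mem_insert] at hm
      rcases hm with rfl | hm
      · exact Or.inl hv
      · exact Or.inr ⟨m, hm, hv⟩
    rcases notNull_or h1 with h2 | h2
    · exact ⟨a, Finset.mem_insert_self _ _, h2⟩
    · obtain ⟨m, hm, hv⟩ := ih h2
      exact ⟨m, Finset.mem_insert_of_mem hm, hv⟩

/-- finite sets of primes have density zero -/
theorem not_notNull_finite {P : HeightOneSpectrum (𝓞 K) → Prop} (h : {v | P v}.Finite) : ¬ NotNull P := by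
  rintro ⟨c, hc, hf⟩
  have hpi : Tendsto (fun N : ℕ => (Nat.primeCounting N : ℝ)) atTop atTop :=
    tendsto_natCast_atTop_atTop.comp Nat.tendsto_primeCounting
  have h1 : ∀ᶠ N : ℕ in atTop, (h.toFinset.card : ℝ) / c < (Nat.primeCounting N : ℝ) :=
    hpi.eventually_gt_atTop _
  obtain ⟨N, hN1, hN2⟩ := (hf.and_eventually h1).exists
  have hcard : (Nat.card {v : HeightOneSpectrum (𝓞 K) // Ideal.absNorm v.asIdeal ≤ N ∧ P v} : ℝ) ≤
      (h.toFinset.card : ℝ) := by
    have e : Nat.card {v : HeightOneSpectrum (𝓞 K) // Ideal.absNorm v.asIdeal ≤ N ∧ P v} =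
        {v : HeightOneSpectrum (𝓞 K) | Ideal.absNorm v.asIdeal ≤ N ∧ P v}.ncard := rfl
    rw [e, ← Set.ncard_eq_toFinset_card _ h]
    exact_mod_cast Set.ncard_le_ncard (s := {v : HeightOneSpectrum (𝓞 K) | Ideal.absNorm v.asIdeal ≤ N ∧ P v}) (t := {v | P v}) (fun v hv => hv.2) h
  have hpos : (0 : ℝ) < (Nat.primeCounting N : ℝ) := by
    refine lt_of_le_of_lt ?_ hN2
    positivity
  unfold dens at hN1
  rw [le_div_iff₀ hpos] at hN1
  rw [div_lt_iff₀ hc] at hN2
  linarith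

end Pool.Agent.Y802
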