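import Pool.Agent.Y802.Root

/-! Matrices whose eigenvalues are roots of unity have finitely many traces. -/

set_option autoImplicit false
set_option linter.all false

namespace Pool.Agent.Y802

open Polynomial

theorem map_trace_aux {R S : Type*} [CommRing R] [CommRing S] {n : ℕ} {f : R →+* S} (A : Matrix (Fin n) (Fin n) R) :
    (A.map f).trace = f A.trace := by
  simp only [Matrix.trace, Matrix.diag, Matrix.map_apply, map_sum]

theorem finite_traces (p : ℕ) [hp : Fact p.Prime] (n : ℕ) :
    {t : ℚ_[p] | ∃ A : Matrix (Fin n) (Fin n) ℚ_[p], A.trace = t ∧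
      ∀ z : AlgebraicClosure ℚ_[p], aeval z A.charpoly = 0 → ∃ m : ℕ, 0 < m ∧ z ^ m = 1}.Finite := by
  classical
  set Ω := AlgebraicClosure ℚ_[p] with hΩ
  set M : ℕ := (p ^ (2 * n)).factorial with hM
  have hMpos : 0 < M := Nat.factorial_pos _
  let R : Set Ω := {z | z ^ M = 1}
  have hR : R.Finite := by
    refine (nthRootsFinset M (1 : Ω)).finite_toSet.subset ?_
    intro z hz
    rw [Finset.mem_coe, mem_nthRootsFinset hMpos]
    exact hz
  haveI : Finite R := hR
  have hinj : Function.Injective (algebraMap ℚ_[p] Ω) := (algebraMap ℚ_[p] Ω).injective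
  have hfin : (Set.range fun f : Fin n → R => ∑ i, (f i : Ω)).Finite := Set.finite_range _
  refine Set.Finite.of_finite_image (f := algebraMap ℚ_[p] Ω) (hfin.subset ?_) hinj.injOn
  rintro _ ⟨t, ⟨A, rfl, hA⟩, rfl⟩
  have h1 : algebraMap ℚ_[p] Ω A.trace = ((A.charpoly.map (algebraMap ℚ_[p] Ω)).roots).sum := by
    have e1 : (A.map (algebraMap ℚ_[p] Ω)).trace = algebraMap ℚ_[p] Ω A.trace :=
      (map_trace_aux A)
    rw [← e1, Matrix.trace_eq_sum_roots_charpoly, Matrix.charpoly_map]
  set s := (A.charpoly.map (algebraMap ℚ_[p] Ω)).roots with hs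
  have hne : A.charpoly.map (algebraMap ℚ_[p] Ω) ≠ 0 := (A.charpoly_monic.map _).ne_zero
  have hcard : s.card = n := by
    rw [hs, ← (IsAlgClosed.splits (A.charpoly.map (algebraMap ℚ_[p] Ω))).natDegree_eq_card_roots,
      natDegree_map, Matrix.charpoly_natDegree_eq_dim, Fintype.card_fin]
  have hmem : ∀ z ∈ s, z ∈ R := by
    intro z hz
    rw [hs, mem_roots hne, IsRoot.def, eval_map_algebraMap] at hz
    obtain ⟨m, hm, hzm⟩ := hA z hz
    have h2 := order_le (p := p) (Ω := Ω) hm hzm (n := n) (f := A.charpoly) A.charpoly_monic.ne_zero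
      (by rw [Matrix.charpoly_natDegree_eq_dim, Fintype.card_fin]) hz
    have h3 : 0 < orderOf z := (isOfFinOrder_iff_pow_eq_one.2 ⟨m, hm, hzm⟩).orderOf_pos
    have h4 : orderOf z ∣ M := Nat.dvd_factorial h3 h2
    exact orderOf_dvd_iff_pow_eq_one.1 h4
  have hlen : s.toList.length = n := by rw [Multiset.length_toList, hcard]
  refine ⟨fun i => ⟨s.toList.get (i.cast hlen.symm), hmem _ (by
    rw [← Multiset.mem_toList]
    exact List.get_mem _ _)⟩, ?_⟩
  simp only
  rw [h1]
  have e2 : ∑ i : Fin n, s.toList.get (i.cast hlen.symm) = ∑ i : Fin s.toList.length, s.toList.get i :=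
    Fintype.sum_equiv (finCongr hlen.symm) _ _ fun i => rfl
  rw [e2]
  have e3 : s.toList.sum = ∑ i : Fin s.toList.length, s.toList.get i := by
    conv_lhs => rw [← List.ofFn_get s.toList]
    rw [List.sum_ofFn]
  rw [← e3]
  exact Multiset.sum_toList s

end Pool.Agent.Y802
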