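import Pool.Agent.Y802.Main

/-! Representations with many Frobenius elements whose eigenvalues are roots of unity up to a Tate
twist: the main theorem. -/

set_option autoImplicit false
set_option linter.all false

namespace Pool.Agent.Y802

open Module MeasureTheory Topology Filter NumberField IsDedekindDomain Pool.Agent.Y800 Polynomial
open Pool.Agent.W401.Cheb Pool.Agent.W528.Ord

variable {K : Type} [Field K] [NumberField K] {p : ℕ} [hp : Fact p.Prime] {n : ℕ}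

/-- the eigenvalues of `ρ σ` are roots of unity multiplied by `N(v) ^ m` -/
def EigAt (ρ : GK K →* GL (Fin n) ℚ_[p]) (m : ℤ) (v : HeightOneSpectrum (𝓞 K)) (σ : GK K) : Prop :=
  ∀ z : AlgebraicClosure ℚ_[p], aeval z (ρ σ : Matrix (Fin n) (Fin n) ℚ_[p]).charpoly = 0 →
    ∃ k : ℕ, 0 < k ∧ z ^ k = (Ideal.absNorm v.asIdeal : AlgebraicClosure ℚ_[p]) ^ (m * k : ℤ)

theorem main_a (ρ : GK K →* GL (Fin n) ℚ_[p]) (hρ : Continuous ρ) (h : Irr ρ) (M : Finset ℤ)
    (hP : NotNull fun v : HeightOneSpectrum (𝓞 K) => ∃ σ, IsFrob v σ ∧ (∃ m ∈ M, EigAt ρ m v σ) ∧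
      (ρ σ : Matrix (Fin n) (Fin n) ℚ_[p]).trace ≠ 0) :
    ∃ m ∈ M, ∃ U : OpenNormalSubgroup (GK K), ∀ u ∈ U.toSubgroup, twist ρ m u = 1 := by
  classical
  -- remove the primes above `p`
  have h1 : NotNull fun v : HeightOneSpectrum (𝓞 K) => ∃ m ∈ M, (p : 𝓞 K) ∉ v.asIdeal ∧
      ∃ σ, IsFrob v σ ∧ EigAt ρ m v σ ∧ (ρ σ : Matrix (Fin n) (Fin n) ℚ_[p]).trace ≠ 0 := by
    have h2 : NotNull fun v : HeightOneSpectrum (𝓞 K) => (∃ m ∈ M, (p : 𝓞 K) ∉ v.asIdeal ∧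
      ∃ σ, IsFrob v σ ∧ EigAt ρ m v σ ∧ (ρ σ : Matrix (Fin n) (Fin n) ℚ_[p]).trace ≠ 0) ∨
        (p : 𝓞 K) ∈ v.asIdeal := by
      refine notNull_mono ?_ hP
      rintro v ⟨σ, hσ, ⟨m, hm, he⟩, ht⟩
      by_cases hv : (p : 𝓞 K) ∈ v.asIdeal
      · exact Or.inr hv
      · exact Or.inl ⟨m, hm, hv, σ, hσ, he, ht⟩
    rcases notNull_or h2 with h3 | h3
    · exact h3
    · exact absurd h3 (not_notNull_finite finite_above)
  obtain ⟨m, hm, hPm⟩ := notNull_finset M _ h1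
  refine ⟨m, hm, ?_⟩
  obtain ⟨mm, hb, μ, hμ1, hμ2, hμ3⟩ := exists_haarK (K := K)
  set T : Finset ℚ_[p] := (finite_traces p n).toFinset.erase 0 with hT
  have hcl : ∀ t : ℚ_[p], IsClosed {g : GK K | (twist ρ m g : Matrix (Fin n) (Fin n) ℚ_[p]).trace = t} :=
    fun t => isClosed_singleton.preimage (continuous_trace_twist ρ hρ m)
  have hZc : IsClosed {g : GK K | (twist ρ m g : Matrix (Fin n) (Fin n) ℚ_[p]).trace ∈ T} := by
    have : IsClosed (T : Set ℚ_[p]) := T.finite_toSet.isClosed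
    exact this.preimage (continuous_trace_twist ρ hρ m)
  refine open_kernel μ (twist ρ m) (twist_irr ρ m h) (fun a ha _ => by
      have : a ≠ 0 := by omega
      exact_mod_cast this) T (Finset.notMem_erase _ _) hcl ?_
  refine measure_ne_zero μ _ hZc ?_ _ hPm ?_
  · intro σ hσ τ
    rw [Set.mem_setOf_eq] at hσ ⊢
    rw [map_mul, map_mul, map_inv, Units.val_mul, Units.val_mul, Matrix.trace_mul_comm, ← mul_assoc,
      ← Units.val_mul, inv_mul_cancel, Units.val_one, one_mul]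
    exact hσ
  · rintro v ⟨hv, σ, hσ, he, ht⟩
    refine ⟨σ, ?_, hσ⟩
    rw [Set.mem_setOf_eq, hT, Finset.mem_erase, Set.Finite.mem_toFinset]
    refine ⟨?_, _, rfl, eig_twist ρ m hv hσ he⟩
    rw [trace_twist]
    exact mul_ne_zero (chiPow K p m σ).ne_zero ht

/-- **zero traces on a set of density greater than `1 - 1 / n²`** -/
theorem main_b (ρ : GK K →* GL (Fin n) ℚ_[p]) (hρ : Continuous ρ) (hn : 0 < n)
    (P Q : HeightOneSpectrum (𝓞 K) → Prop)
    (hPQ : ∀ v, P v → Q v ∨ ∃ σ, IsFrob v σ ∧ (ρ σ : Matrix (Fin n) (Fin n) ℚ_[p]).trace = 0)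
    (c : ℝ) (hc : 1 - 1 / (n : ℝ) ^ 2 < c) (hP : ∃ᶠ N in atTop, c ≤ dens P N) : NotNull Q := by
  classical
  by_contra hQ
  obtain ⟨mm, hb, μ, hμ1, hμ2, hμ3⟩ := exists_haarK (K := K)
  set Z : Set (GK K) := {g | (ρ g : Matrix (Fin n) (Fin n) ℚ_[p]).trace = 0} with hZ
  have hZc : IsClosed Z := isClosed_singleton.preimage (continuous_trace ρ hρ)
  have hconj : ∀ σ ∈ Z, ∀ τ : GK K, τ * σ * τ⁻¹ ∈ Z := by
    intro σ hσ τ
    rw [hZ, Set.mem_setOf_eq] at hσ ⊢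
    rw [map_mul, map_mul, map_inv, Units.val_mul, Units.val_mul, Matrix.trace_mul_comm, ← mul_assoc,
      ← Units.val_mul, inv_mul_cancel, Units.val_one, one_mul]
    exact hσ
  set e : ℝ := (c - (1 - 1 / (n : ℝ) ^ 2)) / 2 with he
  have he0 : 0 < e := by rw [he]; linarith
  have hn' : (0 : ℝ) < (n : ℝ) ^ 2 := by positivity
  have hn1 : 1 / (n : ℝ) ^ 2 ≤ 1 := by
    rw [div_le_one hn']
    have : (1 : ℝ) ≤ n := by exact_mod_cast hn
    nlinarith
  have hQ' : ∀ᶠ N in atTop, dens Q N < e := by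
    by_contra hno
    exact hQ ⟨e, he0, fun h' => hno (h'.mono fun N hN => not_le.1 hN)⟩
  have hμZ : ENNReal.ofReal (1 - (1 / (n : ℝ) ^ 2 - e)) ≤ μ Z := by
    by_contra hlt
    push Not at hlt
    have h2 := dens_lt μ Z hZc hconj (1 - (1 / (n : ℝ) ^ 2 - e)) (by linarith) hlt
    obtain ⟨N, hN1, hN2, hN3⟩ := (hP.and_eventually (hQ'.and h2)).exists
    have h3 := dens_mono (P := P) (Q := fun v => Q v ∨ ∃ σ ∈ Z, IsFrob v σ) (fun v hv => by
      rcases hPQ v hv with h | ⟨σ, h1, h2⟩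
      · exact Or.inl h
      · exact Or.inr ⟨σ, h2, h1⟩) N
    have h4 := dens_or Q (fun v => ∃ σ ∈ Z, IsFrob v σ) N
    linarith
  have key := functional_zero (k := ℚ_[p]) ((Units.coeHom (Matrix (Fin n) (Fin n) ℚ_[p])).comp ρ)
    (Matrix.traceLinearMap (Fin n) ℚ_[p] ℚ_[p]) Z (fun s hs => by
      refine exists_translate μ Z hZc (1 / (n : ℝ) ^ 2 - e) hμZ s ?_
      have h5 : finrank ℚ_[p] (Matrix (Fin n) (Fin n) ℚ_[p]) = n ^ 2 := by
        rw [Module.finrank_matrix, Fintype.card_fin, Module.finrank_self]; ring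
      rw [h5] at hs
      have h6 : (s.card : ℝ) ≤ (n : ℝ) ^ 2 := by exact_mod_cast hs
      by_cases h7 : 1 / (n : ℝ) ^ 2 - e ≤ 0
      · have : (s.card : ℝ) * (1 / (n : ℝ) ^ 2 - e) ≤ 0 :=
          mul_nonpos_of_nonneg_of_nonpos (Nat.cast_nonneg _) h7
        linarith
      · push Not at h7
        calc (s.card : ℝ) * (1 / (n : ℝ) ^ 2 - e) ≤ (n : ℝ) ^ 2 * (1 / (n : ℝ) ^ 2 - e) :=
              mul_le_mul_of_nonneg_right h6 h7.le
          _ = 1 - (n : ℝ) ^ 2 * e := by field_simp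
          _ < 1 := by
              have : 0 < (n : ℝ) ^ 2 * e := mul_pos hn' he0
              linarith) (fun g hg => hg) 1
  rw [map_one] at key
  have h8 : (Matrix.traceLinearMap (Fin n) ℚ_[p] ℚ_[p]) 1 = n := by
    rw [Matrix.traceLinearMap_apply, Matrix.trace_one, Fintype.card_fin]
  rw [h8] at key
  have : (n : ℚ_[p]) ≠ 0 := by exact_mod_cast hn.ne'
  exact this key

/-- passage to the density relative to all primes -/
theorem rel_dens (P : HeightOneSpectrum (𝓞 K) → Prop) {c d : ℝ} (hc : 0 ≤ c) (hcd : c < d)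
    (h : ∃ᶠ N : ℕ in atTop, d * ({v : HeightOneSpectrum (𝓞 K) | Ideal.absNorm v.asIdeal ≤ N}.ncard : ℝ) ≤
      ({v : HeightOneSpectrum (𝓞 K) | Ideal.absNorm v.asIdeal ≤ N ∧ P v}.ncard : ℝ)) :
    ∃ c' : ℝ, c < c' ∧ ∃ᶠ N in atTop, c' ≤ dens P N := by
  have hd : 0 < d := lt_of_le_of_lt hc hcd
  have key := chebK K (⊤ : Subgroup (GK K)) isOpen_univ Set.univ (fun _ _ _ => trivial)
    (fun _ _ _ _ => trivial)
  have e1 : ((((QuotientGroup.mk : GK K → GK K ⧸ (⊤ : Subgroup (GK K))) '' Set.univ).ncard : ℝ) /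
      (Nat.card (GK K ⧸ (⊤ : Subgroup (GK K))) : ℝ)) = 1 := by
    rw [Set.image_univ_of_surjective QuotientGroup.mk_surjective, Set.ncard_univ]
    have h2 : Nat.card (GK K ⧸ (⊤ : Subgroup (GK K))) = 1 := by
      have := Subgroup.index_top (G := GK K)
      exact this
    rw [h2]
    norm_num
  rw [e1] at key
  refine ⟨(c + d) / 2, by linarith, ?_⟩
  have h3 : (c + d) / (2 * d) < 1 := by
    rw [div_lt_one (by positivity)]
    linarith
  have h4 := key.eventually (lt_mem_nhds h3)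
  refine ((h.and_eventually (h4.and (eventually_ge_atTop 2)))).mono ?_
  rintro N ⟨hN1, hN2, hN3⟩
  have hpos : (0 : ℝ) < (Nat.primeCounting N : ℝ) := by
    have h5 : Nat.primeCounting 2 ≤ Nat.primeCounting N := Nat.monotone_primeCounting hN3
    have h6 : Nat.primeCounting 2 = 1 := by decide
    have : 0 < Nat.primeCounting N := by omega
    exact_mod_cast this
  unfold dens at hN2 ⊢
  have e2 : Nat.card {v : HeightOneSpectrum (𝓞 K) // Ideal.absNorm v.asIdeal ≤ N ∧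
      ∃ σ ∈ (Set.univ : Set (GK K)), IsFrob v σ} =
      {v : HeightOneSpectrum (𝓞 K) | Ideal.absNorm v.asIdeal ≤ N}.ncard := by
    have : {v : HeightOneSpectrum (𝓞 K) | Ideal.absNorm v.asIdeal ≤ N} =
        {v : HeightOneSpectrum (𝓞 K) | Ideal.absNorm v.asIdeal ≤ N ∧
      ∃ σ ∈ (Set.univ : Set (GK K)), IsFrob v σ} := by
      ext v
      constructor
      · intro hv
        obtain ⟨σ, hσ⟩ := Pool.Agent.W401.Frob.exists_frob v
        exact ⟨hv, σ, trivial, hσ⟩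
      · exact fun hv => hv.1
    rw [this]
    rfl
  rw [e2] at hN2
  have e3 : Nat.card {v : HeightOneSpectrum (𝓞 K) // Ideal.absNorm v.asIdeal ≤ N ∧ P v} =
      {v : HeightOneSpectrum (𝓞 K) | Ideal.absNorm v.asIdeal ≤ N ∧ P v}.ncard := rfl
  rw [e3, le_div_iff₀ hpos]
  rw [lt_div_iff₀ hpos] at hN2
  calc (c + d) / 2 * (Nat.primeCounting N : ℝ) = d * ((c + d) / (2 * d) * (Nat.primeCounting N : ℝ)) := by
        field_simp
    _ ≤ d * ({v : HeightOneSpectrum (𝓞 K) | Ideal.absNorm v.asIdeal ≤ N}.ncard : ℝ) :=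
        mul_le_mul_of_nonneg_left hN2.le hd.le
    _ ≤ _ := hN1

end Pool.Agent.Y802
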