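import Pool.Agent.Y802.DensK
import Pool.Agent.Y802.Fin
import Pool.Agent.Y802.Cyc
import Pool.Agent.W401.Cheb.Frob

/-! Representations with many Frobenius elements whose eigenvalues are roots of unity up to a Tate
twist. -/

set_option autoImplicit false
set_option linter.all false

namespace Pool.Agent.Y802

open Module MeasureTheory Topology Filter NumberField IsDedekindDomain Pool.Agent.Y800 Polynomial
open Pool.Agent.W401.Cheb Pool.Agent.W528.Ord

variable {K : Type} [Field K] [NumberField K] {p : ℕ} [hp : Fact p.Prime] {n : ℕ}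

section twist

variable (K p)

/-- the character `χ ^ (-m)` with values in `ℚ_p` -/
noncomputable def chiPow (m : ℤ) : GK K →* ℚ_[p]ˣ :=
  (Units.map (algebraMap ℤ_[p] ℚ_[p] : ℤ_[p] →* ℚ_[p])).comp ((chi K p) ^ (-m))

theorem chiPow_val (m : ℤ) (g : GK K) :
    ((chiPow K p m g : ℚ_[p]ˣ) : ℚ_[p]) = ((((chi K p g : ℤ_[p]ˣ) : ℤ_[p]) : ℚ_[p])) ^ (-m) := by
  have e : (chiPow K p m g : ℚ_[p]ˣ) = (Units.map (algebraMap ℤ_[p] ℚ_[p] : ℤ_[p] →* ℚ_[p]) (chi K p g)) ^ (-m) := by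
    show Units.map _ (((chi K p) ^ (-m)) g) = _
    rw [← map_zpow]
    rfl
  rw [e, Units.val_zpow_eq_zpow_val]
  rfl

theorem continuous_chiPow (m : ℤ) : Continuous fun g : GK K => ((chiPow K p m g : ℚ_[p]ˣ) : ℚ_[p]) := by
  have h1 : Continuous fun g : GK K => (((chi K p g) ^ (-m) : ℤ_[p]ˣ) : ℤ_[p]) :=
    Units.continuous_val.comp ((continuous_chi K p).zpow (-m))
  exact continuous_subtype_val.comp h1

variable {K p}

/-- the Tate twist -/
noncomputable def twist (ρ : GK K →* GL (Fin n) ℚ_[p]) (m : ℤ) : GK K →* GL (Fin n) ℚ_[p] where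
  toFun g := Units.map (algebraMap ℚ_[p] (Matrix (Fin n) (Fin n) ℚ_[p]) : ℚ_[p] →* Matrix (Fin n) (Fin n) ℚ_[p])
    (chiPow K p m g) * ρ g
  map_one' := by simp
  map_mul' g h := by
    apply Units.ext
    simp only [map_mul, Units.val_mul, Units.coe_map, MonoidHom.coe_coe]
    simp only [mul_assoc]
    congr 1
    rw [← mul_assoc, ← mul_assoc]
    congr 1
    exact Algebra.commutes _ _

theorem twist_val (ρ : GK K →* GL (Fin n) ℚ_[p]) (m : ℤ) (g : GK K) :
    (twist ρ m g : Matrix (Fin n) (Fin n) ℚ_[p]) =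
      ((chiPow K p m g : ℚ_[p]ˣ) : ℚ_[p]) • (ρ g : Matrix (Fin n) (Fin n) ℚ_[p]) := by
  rw [Algebra.smul_def]
  rfl

theorem twist_irr (ρ : GK K →* GL (Fin n) ℚ_[p]) (m : ℤ) (h : Irr ρ) : Irr (twist ρ m) := by
  intro W hW
  apply h
  intro g w hw
  have h1 := hW g w hw
  rw [twist_val, Matrix.smul_mulVec] at h1
  have h2 := W.smul_mem (((chiPow K p m g)⁻¹ : ℚ_[p]ˣ) : ℚ_[p]) h1
  rwa [smul_smul, Units.inv_mul, one_smul] at h2

theorem trace_twist (ρ : GK K →* GL (Fin n) ℚ_[p]) (m : ℤ) (g : GK K) :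
    (twist ρ m g : Matrix (Fin n) (Fin n) ℚ_[p]).trace =
      ((chiPow K p m g : ℚ_[p]ˣ) : ℚ_[p]) * (ρ g : Matrix (Fin n) (Fin n) ℚ_[p]).trace := by
  rw [twist_val, Matrix.trace_smul, smul_eq_mul]

theorem continuous_trace (ρ : GK K →* GL (Fin n) ℚ_[p]) (hρ : Continuous ρ) :
    Continuous fun g => (ρ g : Matrix (Fin n) (Fin n) ℚ_[p]).trace :=
  (Units.continuous_val.comp hρ).matrix_trace

theorem continuous_trace_twist (ρ : GK K →* GL (Fin n) ℚ_[p]) (hρ : Continuous ρ) (m : ℤ) :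
    Continuous fun g => (twist ρ m g : Matrix (Fin n) (Fin n) ℚ_[p]).trace := by
  simp only [trace_twist]
  exact (continuous_chiPow K p m).mul (continuous_trace ρ hρ)

theorem scal_aux {F : Type*} [Field F] {c z : F} (hc : c ≠ 0) (A : Matrix (Fin n) (Fin n) F) :
    Matrix.scalar (Fin n) z - c • A = c • (Matrix.scalar (Fin n) (c⁻¹ * z) - A) := by
  rw [smul_sub]
  congr 1
  ext i j
  rw [Matrix.smul_apply, Matrix.scalar_apply, Matrix.scalar_apply, Matrix.diagonal_apply,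
    Matrix.diagonal_apply, smul_eq_mul]
  split_ifs
  · rw [mul_inv_cancel_left₀ hc]
  · rw [mul_zero]

theorem map_aux {F E : Type*} [Field F] [Field E] (f : F →+* E) (c : F) (A : Matrix (Fin n) (Fin n) F) :
    (c • A).map f = f c • A.map f := by
  ext i j
  rw [Matrix.map_apply, Matrix.smul_apply, Matrix.smul_apply, Matrix.map_apply, smul_eq_mul,
    smul_eq_mul, map_mul]

/-- the eigenvalues of the twist -/
theorem eig_twist (ρ : GK K →* GL (Fin n) ℚ_[p]) (m : ℤ) {v : HeightOneSpectrum (𝓞 K)}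
    (hv : (p : 𝓞 K) ∉ v.asIdeal) {σ : GK K} (hσ : IsFrob v σ)
    (h : ∀ z : AlgebraicClosure ℚ_[p], aeval z (ρ σ : Matrix (Fin n) (Fin n) ℚ_[p]).charpoly = 0 →
      ∃ k : ℕ, 0 < k ∧ z ^ k = (Ideal.absNorm v.asIdeal : AlgebraicClosure ℚ_[p]) ^ (m * k : ℤ)) :
    ∀ z : AlgebraicClosure ℚ_[p], aeval z (twist ρ m σ : Matrix (Fin n) (Fin n) ℚ_[p]).charpoly = 0 →
      ∃ k : ℕ, 0 < k ∧ z ^ k = 1 := by
  set Ω := AlgebraicClosure ℚ_[p] with hΩ
  intro z hz
  have hN0 : Ideal.absNorm v.asIdeal ≠ 0 := by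
    rw [Ne, Ideal.absNorm_eq_zero_iff]
    exact v.ne_bot
  have hN0' : (Ideal.absNorm v.asIdeal : Ω) ≠ 0 := by
    exact_mod_cast hN0
  set c : ℚ_[p] := ((chiPow K p m σ : ℚ_[p]ˣ) : ℚ_[p]) with hc
  have hcN : c = (Ideal.absNorm v.asIdeal : ℚ_[p]) ^ (-m) := by
    rw [hc, chiPow_val, chi_frob hv hσ]
    simp
  have hc0 : c ≠ 0 := (chiPow K p m σ).ne_zero
  set c' : Ω := algebraMap ℚ_[p] Ω c with hc'
  have hcN' : c' = (Ideal.absNorm v.asIdeal : Ω) ^ (-m) := by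
    rw [hc', hcN, map_zpow₀, map_natCast]
  have hc0' : c' ≠ 0 := by
    rw [hcN']
    exact zpow_ne_zero _ hN0'
  have hev : ∀ (A : Matrix (Fin n) (Fin n) ℚ_[p]) (y : Ω), aeval y A.charpoly =
      (Matrix.scalar (Fin n) y - A.map (algebraMap ℚ_[p] Ω)).det := by
    intro A y
    rw [← eval_map_algebraMap, ← Matrix.charpoly_map, Matrix.eval_charpoly]
  have hz' : aeval (c'⁻¹ * z) (ρ σ : Matrix (Fin n) (Fin n) ℚ_[p]).charpoly = 0 := by
    rw [hev] at hz ⊢
    have e : Matrix.scalar (Fin n) z - (twist ρ m σ : Matrix (Fin n) (Fin n) ℚ_[p]).map (algebraMap ℚ_[p] Ω) =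
        c' • (Matrix.scalar (Fin n) (c'⁻¹ * z) - (ρ σ : Matrix (Fin n) (Fin n) ℚ_[p]).map (algebraMap ℚ_[p] Ω)) := by
      rw [twist_val, ← scal_aux hc0', map_aux]
    rw [e, Matrix.det_smul] at hz
    rcases mul_eq_zero.1 hz with h1 | h1
    · exact absurd h1 (pow_ne_zero _ hc0')
    · exact h1
  obtain ⟨k, hk, hzk⟩ := h _ hz'
  refine ⟨k, hk, ?_⟩
  rw [mul_pow, inv_pow] at hzk
  have h2 : z ^ k = c' ^ k * (Ideal.absNorm v.asIdeal : Ω) ^ (m * k : ℤ) := by
    rw [← hzk, mul_inv_cancel_left₀ (pow_ne_zero _ hc0')]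
  rw [h2, hcN', ← zpow_natCast, ← zpow_mul, ← zpow_add₀ hN0']
  have : -m * (k : ℤ) + m * k = 0 := by ring
  rw [this, zpow_zero]

end twist

section embed

/-- an irreducible representation with open kernel is a submodule of a permutation representation -/
theorem exists_embed (ρ : GK K →* GL (Fin n) ℚ_[p]) (hn : 0 < n) (m : ℤ) (h : Irr (twist ρ m))
    (U : OpenNormalSubgroup (GK K)) (hU : ∀ u ∈ U.toSubgroup, twist ρ m u = 1) :
    ∃ L : IntermediateField K (AlgebraicClosure K), FiniteDimensional K L ∧ IsGalois K L ∧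
      ∃ Φ : (Fin n → ℚ_[p]) →ₗ[ℚ_[p]] ((L →ₐ[K] AlgebraicClosure K) → ℚ_[p]), Function.Injective Φ ∧
        ∀ (g : GK K) (w : Fin n → ℚ_[p]) (φ : L →ₐ[K] AlgebraicClosure K),
          Φ ((ρ g : Matrix (Fin n) (Fin n) ℚ_[p]).mulVec w) φ =
            ((((chi K p g : ℤ_[p]ˣ) : ℤ_[p]) : ℚ_[p])) ^ m *
              Φ w (((g⁻¹ : GK K) : AlgebraicClosure K →ₐ[K] AlgebraicClosure K).comp φ) := by
  classical
  have hUo : IsOpen (U.toSubgroup : Set (GK K)) := U.isOpen'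
  have hUc : IsClosed (U.toSubgroup : Set (GK K)) := U.toSubgroup.isClosed_of_isOpen hUo
  haveI : U.toSubgroup.Normal := U.isNormal'
  set L := IntermediateField.fixedField U.toSubgroup with hL
  have hfix : L.fixingSubgroup = U.toSubgroup :=
    InfiniteGalois.fixingSubgroup_fixedField (⟨U.toSubgroup, hUc⟩ : ClosedSubgroup (GK K))
  have hfd : FiniteDimensional K L := by
    have := (InfiniteGalois.isOpen_iff_finite L).1 (by
      show IsOpen (L.fixingSubgroup : Set (GK K))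
      rw [hfix]; exact hUo)
    exact this
  have hgal : IsGalois K L := by
    have := (InfiniteGalois.normal_iff_isGalois L).1 (by rw [hfix]; infer_instance)
    exact this
  refine ⟨L, hfd, hgal, ?_⟩
  -- lifts of the embeddings
  have hlift : ∀ φ : L →ₐ[K] AlgebraicClosure K, ∃ σ : GK K, ∀ x : L, σ (x : AlgebraicClosure K) = φ x := by
    intro φ
    let ψ : AlgebraicClosure K →ₐ[K] AlgebraicClosure K := φ.liftNormal (AlgebraicClosure K)
    refine ⟨AlgEquiv.ofBijective ψ (Algebra.IsAlgebraic.algHom_bijective ψ), fun x => ?_⟩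
    exact φ.liftNormal_commutes (AlgebraicClosure K) x
  choose s hs using hlift
  haveI : NeZero n := ⟨hn.ne'⟩
  set r := twist ρ m with hr
  let lam : (Fin n → ℚ_[p]) →ₗ[ℚ_[p]] ℚ_[p] := LinearMap.proj (⟨0, hn⟩ : Fin n)
  have hwd : ∀ (σ τ : GK K), (∀ x : L, σ (x : AlgebraicClosure K) = τ (x : AlgebraicClosure K)) → r σ⁻¹ = r τ⁻¹ := by
    intro σ τ hστ
    have h1 : τ⁻¹ * σ ∈ U.toSubgroup := by
      rw [← hfix, IntermediateField.mem_fixingSubgroup_iff]
      intro x hx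
      show τ⁻¹ (σ x) = x
      rw [hστ ⟨x, hx⟩]
      show τ.symm (τ x) = x
      rw [AlgEquiv.symm_apply_apply]
    have h2 := hU _ h1
    have h3 : r σ = r τ := by
      have : σ = τ * (τ⁻¹ * σ) := by group
      rw [this, map_mul, h2, mul_one]
    rw [map_inv, map_inv, h3]
  let Φ : (Fin n → ℚ_[p]) →ₗ[ℚ_[p]] ((L →ₐ[K] AlgebraicClosure K) → ℚ_[p]) :=
    LinearMap.pi fun φ => lam ∘ₗ Matrix.toLin' (r (s φ)⁻¹ : Matrix (Fin n) (Fin n) ℚ_[p])
  have hΦ : ∀ w φ, Φ w φ = lam ((r (s φ)⁻¹ : Matrix (Fin n) (Fin n) ℚ_[p]).mulVec w) := fun w φ => rfl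
  have hequiv : ∀ (g : GK K) (w : Fin n → ℚ_[p]) (φ : L →ₐ[K] AlgebraicClosure K),
      Φ ((r g : Matrix (Fin n) (Fin n) ℚ_[p]).mulVec w) φ =
        Φ w (((g⁻¹ : GK K) : AlgebraicClosure K →ₐ[K] AlgebraicClosure K).comp φ) := by
    intro g w φ
    rw [hΦ, hΦ, Matrix.mulVec_mulVec, ← Units.val_mul, ← map_mul]
    have e : (s φ)⁻¹ * g = (g⁻¹ * s φ)⁻¹ := by group
    rw [e, hwd (g⁻¹ * s φ) (s (((g⁻¹ : GK K) : AlgebraicClosure K →ₐ[K] AlgebraicClosure K).comp φ)) ?_]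
    intro x
    rw [hs]
    show g⁻¹ (s φ x) = _
    rw [hs]
    rfl
  refine ⟨Φ, ?_, ?_⟩
  · rw [← LinearMap.ker_eq_bot]
    have hst : Stable r (LinearMap.ker Φ) := by
      intro g w hw
      rw [LinearMap.mem_ker] at hw ⊢
      ext φ
      rw [hequiv, hw]
      rfl
    rcases h _ hst with h1 | h1
    · exact h1
    · exfalso
      have h2 : Φ (Pi.single (⟨0, hn⟩ : Fin n) 1) = 0 := by
        rw [← LinearMap.mem_ker, h1]; trivial
      have h3 := congrFun h2 L.val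
      rw [hΦ] at h3
      have h4 : r (s L.val)⁻¹ = 1 := by
        rw [hwd (s L.val) 1 (fun x => by rw [hs]; rfl), inv_one, map_one]
      rw [h4, Units.val_one, Matrix.one_mulVec] at h3
      have h5 : lam (Pi.single (⟨0, hn⟩ : Fin n) (1 : ℚ_[p])) = 1 := by
        show (Pi.single (⟨0, hn⟩ : Fin n) (1 : ℚ_[p]) : Fin n → ℚ_[p]) ⟨0, hn⟩ = 1
        exact Pi.single_eq_same _ _
      rw [h5] at h3
      exact one_ne_zero h3
  · intro g w φ
    rw [← hequiv, hr, twist_val, Matrix.smul_mulVec, map_smul, Pi.smul_apply, smul_eq_mul, chiPow_val,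
      ← mul_assoc, ← zpow_add₀, add_neg_cancel, zpow_zero, one_mul]
    intro h0
    have h1 : ((chi K p g : ℤ_[p]ˣ) : ℤ_[p]) = 0 := Subtype.ext h0
    exact (chi K p g).ne_zero h1

end embed

end Pool.Agent.Y802
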