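import Mathlib

/-! Roots of unity of bounded degree over `ℚ_p` have bounded order. -/

set_option autoImplicit false
set_option linter.all false

namespace Pool.Agent.Y802

open Polynomial

section

variable {p : ℕ} [hp : Fact p.Prime] {Ω : Type*} [Field Ω] [Algebra ℚ_[p] Ω] [Algebra ℤ_[p] Ω]
  [IsScalarTower ℤ_[p] ℚ_[p] Ω]

theorem prime_ne {q : ℕ} (hq : q.Prime) {b : Ω} (hb : IsIntegral ℤ_[p] b) :
    (q : Ω) ≠ (p : Ω) ^ 2 * b := by
  intro h
  have hp0 : (p : ℚ_[p]) ≠ 0 := by exact_mod_cast hp.out.ne_zero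
  have hinj : Function.Injective (algebraMap ℚ_[p] Ω) := (algebraMap ℚ_[p] Ω).injective
  have hp0' : (p : Ω) ≠ 0 := by
    intro h0
    apply hp0
    apply hinj
    rw [map_natCast, h0, map_zero]
  have e : b = algebraMap ℚ_[p] Ω ((q : ℚ_[p]) / (p : ℚ_[p]) ^ 2) := by
    rw [map_div₀, map_pow, map_natCast, map_natCast, h]
    field_simp
  rw [e, isIntegral_algebraMap_iff hinj, IsIntegrallyClosed.isIntegral_iff] at hb
  obtain ⟨y, hy⟩ := hb
  have h1 : ‖(q : ℚ_[p]) / (p : ℚ_[p]) ^ 2‖ ≤ 1 := by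
    rw [← hy]
    exact y.2
  rw [norm_div, norm_pow, Padic.norm_p, div_le_one (by have := hp.out.pos; positivity)] at h1
  by_cases hqp : q = p
  · subst hqp
    rw [Padic.norm_p] at h1
    have h2 : (1 : ℝ) < q := by exact_mod_cast hq.one_lt
    have h3 : ((q : ℝ)⁻¹) ^ 2 < ((q : ℝ)⁻¹) := by
      rw [sq]
      have h4 : (0 : ℝ) < (q : ℝ)⁻¹ := by positivity
      have h5 : (q : ℝ)⁻¹ < 1 := inv_lt_one_of_one_lt₀ h2
      nlinarith
    linarith
  · have h2 : ‖(q : ℚ_[p])‖ = 1 := by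
      have := (Padic.norm_natCast_eq_one_iff (p := p) (n := q)).2 ?_
      · exact this
      · exact (Nat.coprime_primes hp.out hq).2 (Ne.symm hqp)
    rw [h2] at h1
    have h3 : (1 : ℝ) < p := by exact_mod_cast hp.out.one_lt
    have h4 : ((p : ℝ)⁻¹) ^ 2 < 1 := by
      have h5 : (p : ℝ)⁻¹ < 1 := inv_lt_one_of_one_lt₀ h3
      have h6 : (0 : ℝ) < (p : ℝ)⁻¹ := by positivity
      nlinarith
    linarith

/-- a root of unity congruent to one modulo `p ^ 2` is one -/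
theorem eq_one_of_congr {ξ : Ω} {m : ℕ} (hm : 0 < m) (hξ : ξ ^ m = 1) {a : Ω} (ha : IsIntegral ℤ_[p] a)
    (h : 1 - ξ = (p : Ω) ^ 2 * a) : ξ = 1 := by
  by_contra hne
  have hint : IsIntegral ℤ_[p] ξ := IsIntegral.of_pow hm (by rw [hξ]; exact isIntegral_one)
  have hfin : IsOfFinOrder ξ := isOfFinOrder_iff_pow_eq_one.2 ⟨m, hm, hξ⟩
  set o := orderOf ξ with ho
  have ho1 : o ≠ 1 := fun h => hne (orderOf_eq_one_iff.1 h)
  have ho0 : 0 < o := hfin.orderOf_pos
  set q := o.minFac with hq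
  have hqp : q.Prime := Nat.minFac_prime ho1
  obtain ⟨e, he⟩ := o.minFac_dvd
  -- the power of order `q`
  set η := ξ ^ e with hη
  have hηq : η ^ q = 1 := by
    rw [hη, ← pow_mul, mul_comm, ← he]; exact pow_orderOf_eq_one ξ
  have hη1 : η ≠ 1 := by
    intro h1
    have h2 : o ∣ e := orderOf_dvd_of_pow_eq_one h1
    have he0 : 0 < e := by
      rcases Nat.eq_zero_or_pos e with h3 | h3
      · rw [h3, mul_zero] at he; omega
      · exact h3
    have h3 := Nat.le_of_dvd he0 h2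
    have h4 : 2 * e ≤ o := by
      have h5 : 2 * e ≤ o.minFac * e := Nat.mul_le_mul_right _ hqp.two_le
      exact h5.trans he.symm.le
    omega
  have hcong : ∀ j : ℕ, ∃ b : Ω, IsIntegral ℤ_[p] b ∧ 1 - ξ ^ j = (p : Ω) ^ 2 * b := by
    intro j
    refine ⟨a * ∑ i ∈ Finset.range j, ξ ^ i, ha.mul (IsIntegral.sum _ fun i _ => hint.pow i), ?_⟩
    have h1 : (1 - ξ) * ∑ i ∈ Finset.range j, ξ ^ i = 1 - ξ ^ j := mul_neg_geom_sum ξ j
    rw [← h1, h]; ring
  have hsum : ∑ j ∈ Finset.range q, η ^ j = 0 := by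
    have h1 : (1 - η) * ∑ i ∈ Finset.range q, η ^ i = 1 - η ^ q := mul_neg_geom_sum η q
    rw [hηq, sub_self] at h1
    rcases mul_eq_zero.1 h1 with h2 | h2
    · exact absurd (sub_eq_zero.1 h2).symm hη1
    · exact h2
  choose b hb1 hb2 using fun j : ℕ => hcong (e * j)
  refine prime_ne (Ω := Ω) (p := p) hqp (b := ∑ j ∈ Finset.range q, b j)
    (IsIntegral.sum _ fun i _ => hb1 i) ?_
  rw [Finset.mul_sum, ← Finset.sum_congr rfl fun j _ => hb2 j, Finset.sum_sub_distrib]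
  simp only [pow_mul]
  rw [← hη, hsum, Finset.sum_const, Finset.card_range]
  simp

/-- **bounded degree implies bounded order** -/
theorem order_le {ζ : Ω} {m : ℕ} (hm : 0 < m) (hζ : ζ ^ m = 1) {n : ℕ} {f : ℚ_[p][X]} (hf : f ≠ 0)
    (hdeg : f.natDegree ≤ n) (hroot : aeval ζ f = 0) : orderOf ζ ≤ p ^ (2 * n) := by
  classical
  have hint : IsIntegral ℤ_[p] ζ := IsIntegral.of_pow hm (by rw [hζ]; exact isIntegral_one)
  have hζ0 : ζ ≠ 0 := by
    rintro rfl
    rw [zero_pow hm.ne'] at hζ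
    exact zero_ne_one hζ
  set g := minpoly ℤ_[p] ζ with hg
  have hgm : g.Monic := minpoly.monic hint
  have hgd : g.natDegree ≤ n := by
    have h1 := minpoly.isIntegrallyClosed_eq_field_fractions' ℚ_[p] hint
    have h2 : (minpoly ℚ_[p] ζ).natDegree = g.natDegree := by
      rw [h1, hgm.natDegree_map]
    rw [← h2]
    exact (natDegree_le_of_dvd (minpoly.dvd _ _ hroot) hf).trans hdeg
  have hg1 : g ≠ 1 := minpoly.ne_one _ _
  -- remainders
  let r : ℕ → ℤ_[p][X] := fun i => (X ^ i : ℤ_[p][X]) %ₘ g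
  have hr1 : ∀ i, aeval ζ (r i) = ζ ^ i := by
    intro i
    show aeval ζ ((X ^ i : ℤ_[p][X]) %ₘ g) = _
    rw [aeval_modByMonic_eq_self_of_root (minpoly.aeval _ _), map_pow, aeval_X]
  have hr2 : ∀ i, (r i).natDegree < n ∨ n = 0 := by
    intro i
    have := natDegree_modByMonic_lt (X ^ i : ℤ_[p][X]) hgm hg1
    left
    exact lt_of_lt_of_le this hgd
  have hr3 : ∀ i j, n ≤ j → (r i).coeff j = 0 := by
    intro i j hj
    apply coeff_eq_zero_of_natDegree_lt
    have := natDegree_modByMonic_lt (X ^ i : ℤ_[p][X]) hgm hg1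
    exact lt_of_lt_of_le (lt_of_lt_of_le this hgd) hj
  by_contra hlt
  push Not at hlt
  haveI : NeZero (p ^ 2) := ⟨pow_ne_zero 2 hp.out.ne_zero⟩
  let F : Fin (orderOf ζ) → (Fin n → ZMod (p ^ 2)) := fun i j => PadicInt.toZModPow 2 ((r i).coeff j)
  have hcard : Fintype.card (Fin n → ZMod (p ^ 2)) < Fintype.card (Fin (orderOf ζ)) := by
    rw [Fintype.card_fun, ZMod.card, Fintype.card_fin, Fintype.card_fin, ← pow_mul]
    exact hlt
  obtain ⟨i, j, hij, hF⟩ := Fintype.exists_ne_map_eq_of_card_lt F hcard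
  -- the difference is divisible by `p ^ 2`
  have hdiv : ∀ c : ℕ, ∃ b : ℤ_[p], (r i).coeff c - (r j).coeff c = (p : ℤ_[p]) ^ 2 * b := by
    intro c
    by_cases hc : c < n
    · have h1 := congrFun hF ⟨c, hc⟩
      have h2 : PadicInt.toZModPow 2 ((r i).coeff c - (r j).coeff c) = 0 := by
        rw [map_sub, sub_eq_zero]; exact h1
      rw [← RingHom.mem_ker, PadicInt.ker_toZModPow, Ideal.mem_span_singleton] at h2
      exact h2
    · refine ⟨0, ?_⟩
      rw [hr3 _ _ (not_lt.1 hc), hr3 _ _ (not_lt.1 hc)]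
      simp
  choose b hb using hdiv
  let B : ℤ_[p][X] := ∑ c ∈ Finset.range n, C (b c) * X ^ c
  have hB : ζ ^ (i : ℕ) - ζ ^ (j : ℕ) = (p : Ω) ^ 2 * aeval ζ B := by
    have e1 : ∀ i : ℕ, r i = ∑ c ∈ Finset.range n, C ((r i).coeff c) * X ^ c := by
      intro i
      have h0 : 0 < n ∨ n = 0 := by omega
      have hlt : (r i).natDegree < n := by
        have := natDegree_modByMonic_lt (X ^ i : ℤ_[p][X]) hgm hg1
        exact lt_of_lt_of_le this hgd
      exact (r i).as_sum_range_C_mul_X_pow' hlt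
    rw [← hr1, ← hr1, ← map_sub, e1 i, e1 j, ← Finset.sum_sub_distrib]
    have e2 : ∑ c ∈ Finset.range n, (C ((r i).coeff c) * X ^ c - C ((r j).coeff c) * X ^ c) =
        C ((p : ℤ_[p]) ^ 2) * B := by
      show _ = C ((p : ℤ_[p]) ^ 2) * ∑ c ∈ Finset.range n, C (b c) * X ^ c
      rw [Finset.mul_sum]
      refine Finset.sum_congr rfl fun c _ => ?_
      rw [← sub_mul, ← C_sub, hb, C_mul, mul_assoc]
    rw [e2, map_mul, aeval_C, map_pow, map_natCast]
  have hBint : IsIntegral ℤ_[p] (aeval ζ B) := by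
    show IsIntegral ℤ_[p] (aeval ζ (∑ c ∈ Finset.range n, C (b c) * X ^ c))
    rw [map_sum]
    refine IsIntegral.sum _ fun c _ => ?_
    rw [map_mul, aeval_C, map_pow, aeval_X]
    exact isIntegral_algebraMap.mul (hint.pow c)
  -- symmetric argument
  have key : ∀ i j : ℕ, i < orderOf ζ → j < orderOf ζ → i < j → ∀ a : Ω, IsIntegral ℤ_[p] a →
      ζ ^ i - ζ ^ j = (p : Ω) ^ 2 * a → False := by
    intro i j hi hj hij a ha h
    have h1 : ζ ^ (j - i) = 1 := by
      refine eq_one_of_congr (p := p) (m := m) hm (by rw [← pow_mul, mul_comm, pow_mul, hζ, one_pow])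
        (a := a * ζ ^ (m * i - i)) (ha.mul (hint.pow _)) ?_
      have h2 : ζ ^ (m * i - i) * ζ ^ i = 1 := by
        rw [← pow_add, Nat.sub_add_cancel (Nat.le_mul_of_pos_left _ hm), pow_mul, hζ, one_pow]
      have h3 : ζ ^ j = ζ ^ i * ζ ^ (j - i) := by
        rw [← pow_add]; congr 1; omega
      calc 1 - ζ ^ (j - i) = (ζ ^ (m * i - i) * ζ ^ i) * (1 - ζ ^ (j - i)) := by rw [h2, one_mul]
        _ = ζ ^ (m * i - i) * (ζ ^ i - ζ ^ j) := by rw [h3]; ring
        _ = (p : Ω) ^ 2 * (a * ζ ^ (m * i - i)) := by rw [h]; ring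
    have h2 := orderOf_dvd_of_pow_eq_one h1
    have h3 := Nat.le_of_dvd (by omega) h2
    omega
  rcases lt_or_gt_of_ne (fun h => hij (Fin.ext h) : (i : ℕ) ≠ j) with h | h
  · exact key i j i.2 j.2 h _ hBint hB
  · refine key j i j.2 i.2 h (-aeval ζ B) hBint.neg ?_
    rw [mul_neg, ← hB]; ring

end

end Pool.Agent.Y802
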